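import Mathlib
import Pool.Agent.PDN.Defs

/-!
# PDM: planar degree sequences encode 3-DIMENSIONAL MATCHING. Definitions

`Tri`, `Planar`, `Realizable` are the ones of `Pool.Agent.PDN.Defs`: `T.f u v w` means that
`(u, v, w)` is an oriented face, that is `w` comes after `v` around `u`.
-/

set_option autoImplicit false

namespace Pool.Agent.PDM

open Pool.Agent.PDN

/-! ### The problem 3-DIMENSIONAL MATCHING -/

/-- an instance: a set of triples -/
abbrev Ins (t : ℕ) : Type := Finset (Fin t × Fin t × Fin t)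

/-- a matching: `t` of the triples, any two of them different in all three coordinates -/
def Matching {t : ℕ} (τ : Ins t) : Prop :=
  ∃ S : Ins t, S ⊆ τ ∧ S.card = t ∧
    ∀ p ∈ S, ∀ p' ∈ S, p ≠ p' → p.1 ≠ p'.1 ∧ p.2.1 ≠ p'.2.1 ∧ p.2.2 ≠ p'.2.2

/-! ### The large vertices -/

/-- The large vertices: the `3 t` elements, the triples, the four vertices `E₀, E₀', E₁, E₁'`, the
`4 t + 4` dummies and the vertex `Z`. -/
abbrev Big {t : ℕ} (τ : Ins t) : Type :=
  (Fin 3 × Fin t) ⊕ (↥τ ⊕ ((Fin 2 × Bool) ⊕ (Fin (4 * t + 4) ⊕ Unit)))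

instance {t : ℕ} (τ : Ins t) : DecidableEq (Big τ) := instDecidableEqSum

/-- an element -/
abbrev el {t : ℕ} {τ : Ins t} (x : Fin 3 × Fin t) : Big τ := Sum.inl x

/-- a triple -/
abbrev tr {t : ℕ} {τ : Ins t} (p : ↥τ) : Big τ := Sum.inr (Sum.inl p)

/-- `ee (0, false) = E₀`, `ee (0, true) = E₀'`, `ee (1, false) = E₁`, `ee (1, true) = E₁'` -/
abbrev ee {t : ℕ} {τ : Ins t} (x : Fin 2 × Bool) : Big τ := Sum.inr (Sum.inr (Sum.inl x))

/-- a dummy -/
abbrev dm {t : ℕ} {τ : Ins t} (k : Fin (4 * t + 4)) : Big τ :=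
  Sum.inr (Sum.inr (Sum.inr (Sum.inl k)))

/-- the vertex `Z` -/
abbrev zz {t : ℕ} {τ : Ins t} : Big τ := Sum.inr (Sum.inr (Sum.inr (Sum.inr ())))

/-- base of the digits -/
def bs (t : ℕ) : ℕ := 4 * (t + 1) ^ 2

/-- the code of the element `i` of kind `k`: digits `i + 1` and `(i + 1) ^ 2` -/
def code {t : ℕ} (k : Fin 3) (i : Fin t) : ℕ :=
  bs t ^ (2 * (k : ℕ)) * ((i : ℕ) + 1) + bs t ^ (2 * (k : ℕ) + 1) * ((i : ℕ) + 1) ^ 2

/-- the offset of the elements -/
def off (t : ℕ) : ℕ := 8 * (t + 1) * bs t ^ 6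

/-- the value of an element -/
def vA {t : ℕ} (k : Fin 3) (i : Fin t) : ℕ := 8 * (off t + code k i)

/-- the value of a triple: the sum of the values of its elements -/
def vC {t : ℕ} (p : Fin t × Fin t × Fin t) : ℕ := vA 0 p.1 + vA 1 p.2.1 + vA 2 p.2.2

/-- the sum of the values of all elements -/
def sA (t : ℕ) : ℕ := ∑ k : Fin 3, ∑ i : Fin t, vA k i

/-- the value of a dummy -/
def vD (t : ℕ) : ℕ := 2 * sA t + 9

/-- the sum of the values of all triples -/
def sC {t : ℕ} (τ : Ins t) : ℕ := ∑ p ∈ τ, vC p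

/-- the value of `Z` -/
def vZ {t : ℕ} (τ : Ins t) : ℕ := sC τ + (4 * t + 4) * vD t - sA t

/-- the scale -/
def sc {t : ℕ} (τ : Ins t) : ℕ := 200 * (t + τ.card + 2)

/-- the values -/
def val {t : ℕ} {τ : Ins t} : Big τ → ℕ
  | Sum.inl x => vA x.1 x.2
  | Sum.inr (Sum.inl p) => vC p.1
  | Sum.inr (Sum.inr (Sum.inl x)) => if x.1 = 0 then 1 else 3
  | Sum.inr (Sum.inr (Sum.inr (Sum.inl _))) => vD t
  | Sum.inr (Sum.inr (Sum.inr (Sum.inr _))) => vZ τ

/-- the degrees of the large vertices in the inner triangulation: the values times the scale, with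
small corrections -/
def dgr {t : ℕ} {τ : Ins t} : Big τ → ℕ
  | Sum.inl x => sc τ * vA x.1 x.2
  | Sum.inr (Sum.inl p) => sc τ * vC p.1 - 10
  | Sum.inr (Sum.inr (Sum.inl x)) => sc τ * (if x.1 = 0 then 1 else 3) + (if x.2 then 3 else 0)
  | Sum.inr (Sum.inr (Sum.inr (Sum.inl _))) => sc τ * vD t
  | Sum.inr (Sum.inr (Sum.inr (Sum.inr _))) => sc τ * vZ τ - (14 * τ.card + 2 * t + 20)

/-- the marked large vertices (they get odd degrees): the elements of the kinds `0`, `1`, the
vertices `E₀`, `E₁` and the dummies -/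
def mrk {t : ℕ} {τ : Ins t} : Big τ → Bool
  | Sum.inl x => decide (x.1 ≠ 2)
  | Sum.inr (Sum.inl _) => false
  | Sum.inr (Sum.inr (Sum.inl x)) => !x.2
  | Sum.inr (Sum.inr (Sum.inr (Sum.inl _))) => true
  | Sum.inr (Sum.inr (Sum.inr (Sum.inr _))) => false

/-- the number of the vertices of degree four of the inner triangulation -/
def n4 {t : ℕ} (τ : Ins t) : ℕ :=
  sc τ * (4 + sC τ + (4 * t + 4) * vD t) - (15 * τ.card + 22 * t + 28)

/-- the number of the vertices of degree three -/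
def n3 {t : ℕ} (τ : Ins t) : ℕ := 2 * (7 * t + τ.card + 9 + n4 τ) - (2 * t + 6)

/-- the sequence -/
def seqm {t : ℕ} (τ : Ins t) : Multiset ℕ :=
  Finset.univ.val.map (fun v : Big τ => 2 * dgr v - (if mrk v then 1 else 0)) +
    Multiset.replicate (n4 τ) 8 + Multiset.replicate (n3 τ) 3

/-! ### Free faces and symbolic states -/

/-- the vertex `u` is in a face of the family `U` -/
def Mk {V : Type} (U : V → V → V → Prop) (u : V) : Prop := ∃ v w, U u v w

/-- a family of pairwise vertex disjoint faces -/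
structure Free {V : Type} (T : Tri V) (U : V → V → V → Prop) : Prop where
  sub : ∀ {u v w}, U u v w → T.f u v w
  rot : ∀ {u v w}, U u v w → U v w u
  disj : ∀ {u v w v' w'}, U u v w → U u v' w' → v = v'

/-- equal up to rotation -/
def IsRot (s p : ℕ × ℕ × ℕ) : Prop :=
  p = s ∨ p = (s.2.1, s.2.2, s.1) ∨ p = (s.2.2, s.1, s.2.1)

instance (s p : ℕ × ℕ × ℕ) : Decidable (IsRot s p) := by
  unfold IsRot
  infer_instance

/-- in the list, up to rotation -/
def Rt (F : List (ℕ × ℕ × ℕ)) (p : ℕ × ℕ × ℕ) : Prop := ∃ s ∈ F, IsRot s p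

instance (F : List (ℕ × ℕ × ℕ)) (p : ℕ × ℕ × ℕ) : Decidable (Rt F p) := by
  unfold Rt
  infer_instance

open Classical in
/-- Symbolic state: there are a connected triangulation `T` and a family `U` of vertex disjoint
faces (the free faces), and different vertices `nm 0, .., nm (k - 1)` (the named vertices), such
that every triple of `F` is a face of `T` outside `U`, the degree of `nm i` is `dg i`, `nm i` is in
a face of `U` iff `i ∈ mk`, and `M` is the family of the pairs (degree, marked?) of the vertices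
without name. -/
def Rl (k : ℕ) (F : List (ℕ × ℕ × ℕ)) (mk : List ℕ) (dg : ℕ → ℕ) (M : Multiset (ℕ × Bool)) :
    Prop :=
  ∃ (V : Type) (_ : Fintype V) (T : Tri V) (nm : ℕ → V) (U : V → V → V → Prop),
    T.graph.Connected ∧ Free T U ∧ (∀ i j, i < k → j < k → nm i = nm j → i = j) ∧
    (∀ p ∈ F, p.1 < k ∧ p.2.1 < k ∧ p.2.2 < k ∧ T.f (nm p.1) (nm p.2.1) (nm p.2.2) ∧
      ¬ U (nm p.1) (nm p.2.1) (nm p.2.2)) ∧
    (∀ i, i < k → T.deg (nm i) = dg i) ∧ (∀ i, i < k → (Mk U (nm i) ↔ i ∈ mk)) ∧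
    (Finset.univ.filter (fun v => ∀ i, i < k → v ≠ nm i)).val.map
      (fun v => (T.deg v, decide (Mk U v))) = M

/-- The state of the chain: the named vertices are `0 = Z`, `1`, `2` and `(0, 1, 2)` is a face;
degrees `α`, `dz`, `db`; marks of the vertices `1`, `2`. -/
def St (α dz : ℕ) (mz : Bool) (db : ℕ) (mb : Bool) (M : Multiset (ℕ × Bool)) : Prop :=
  Rl 3 [(0, 1, 2)] ((if mz then [1] else []) ++ (if mb then [2] else []))
    (fun n => if n = 0 then α else if n = 1 then dz else db) M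

end Pool.Agent.PDM
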