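import Mathlib
import Pool.Agent.PDN.Stmts
import Pool.Agent.PDM.Defs

/-!
# PDM: statements of the modules

Convention (as in PDN): `T.f u v w` = `(u, v, w)` is an oriented face = `w` comes after `v` around
`u`. All rows are independent: a row may use the statements named in its docstring as hypotheses.
`H` = the vertices of degree `≠ 4`, `A` = the vertices of degree `4`.
-/

set_option autoImplicit false

namespace Pool.Agent.PDM

open Pool.Agent.PDN

/-! ## Necessity: from the graph to the inner triangulation -/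

/-- EU3 (as EUL of PDN, with degrees at least three). -/
def Eu3Stmt : Prop :=
  ∀ (V : Type) [Fintype V] (G : SimpleGraph V), Planar G →
    (∀ v, 3 ≤ Nat.card (G.neighborSet v)) →
    ∑ v, Nat.card (G.neighborSet v) + 12 = 6 * Fintype.card V →
    ∃ T : Tri V, T.graph = G ∧ G.Connected ∧ T.Tight ∧
      ∀ v, T.deg v = Nat.card (G.neighborSet v)

/-- RM3 (about 350 lines): delete the vertices of degree three. For `deg s = 3` the link of `s` is
a triangle `f s x y`, `f s y z`, `f s z x` (as in LNK). Two adjacent vertices `s, s'` of degree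
three: the faces at `s` are `(s, s', x)`, `(s, x, y)`, `(s, y, s')`, and `s'` has the neighbours
`s, x, y`, so `x, y` ... the four vertices are closed under adjacency, `|V| = 4`. Define
`T'.f u v w := T.f u v w` or there is `s` with `deg s = 3`, `f u v s`, `f u s w` (all of `u, v, w`
of degree `≠ 3`); then `(u, v, w)` is the link triangle of `s`: `f s w v`, `f s u w`, `f s v u`
up to orientation. Link of `u` in `T'`: the link in `T` with the vertices of degree three left out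
(no two of them are consecutive). Degrees: around `v` the `deg v` faces are of two kinds: faces
without a vertex of degree three (counted by the set `{a // ..}`), and two for every neighbour of
degree three; `T'.deg v = deg v - #(neighbours of degree three)`. Tight: `6` darts are lost for
every vertex of degree three. Connected: a vertex of degree three on a walk can be avoided (its
neighbours are pairwise adjacent), or: the adjacency of `T'` contains all edges of `T` between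
vertices of degree `≠ 3`. The last claim follows from the others by summation. -/
def Rm3Stmt : Prop :=
  ∀ (V : Type) [Fintype V] (T : Tri V), T.graph.Connected → T.Tight → 5 ≤ Fintype.card V →
    ∃ T' : Tri {v : V // T.deg v ≠ 3}, T'.graph.Connected ∧ T'.Tight ∧
      (∀ u v w : {v : V // T.deg v ≠ 3}, T.f u v w → T'.f u v w) ∧
      (∀ v : {v : V // T.deg v ≠ 3}, 2 * T'.deg v =
        T.deg v + Nat.card {a : {v : V // T.deg v ≠ 3} // ∃ b, T.deg b ≠ 3 ∧ T.f v a b}) ∧
      Nat.card {p : {v : V // T.deg v ≠ 3} × {v : V // T.deg v ≠ 3} //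
          ∃ b, T.deg b ≠ 3 ∧ T.f p.1 p.2 b} + 12 + 3 * Nat.card {v : V // T.deg v = 3} =
        6 * Nat.card {v : V // T.deg v ≠ 3}

/-- PAR (uses EU3, RM3; about 250 lines). Take the graph, `T` from EU3, `T'` from RM3. The vertices
of degree `≠ 3` of `T` correspond to `ι ⊕ Fin m` (bijection with equal degrees: equal multisets);
those of `Fin m` have degree `8`, the degree of `i ∈ ι` is `2 d i - 1` if marked and `2 d i` if not.
`u v :=` the number `Nat.card {a // ..}` of RM3 (free faces at `v`) has the parity of `deg v`, and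
`∑ u v = 6 n' - 12 - 3 n₃ = 3 q` = the number of the odd degrees. So `u v = 1` if the degree is odd
and `0` otherwise, `T'.deg = d i` on `ι` and `4` on `Fin m`. All darts of free faces have their
three corners in `ι`, and there are `3 q` of them. -/
def ParStmt : Prop :=
  ∀ (ι : Type) [Fintype ι] (d : ι → ℕ) (mk : ι → Bool) (m n q : ℕ), (∀ i, 5 ≤ d i) →
    3 ≤ Fintype.card ι →
    ∑ i, d i + 12 = 2 * m + 6 * Fintype.card ι →
    n + 4 + q = 2 * (Fintype.card ι + m) →
    Nat.card {i // mk i = true} = 3 * q →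
    Realizable (Finset.univ.val.map (fun i => 2 * d i - (if mk i then 1 else 0)) +
      Multiset.replicate m 8 + Multiset.replicate n 3) →
    ∃ (V : Type) (_ : Fintype V) (T : Tri V) (φ : ι ↪ V), T.graph.Connected ∧ T.Tight ∧
      (∀ i, T.deg (φ i) = d i) ∧ (∀ v, v ∉ Set.range φ → T.deg v = 4) ∧
      3 * q ≤ Nat.card {p : V × V // ∃ w, T.f p.1 p.2 w ∧ T.deg p.1 ≠ 4 ∧ T.deg p.2 ≠ 4 ∧
        T.deg w ≠ 4}

/-! ## Necessity: the chains of vertices of degree four -/

/-- ALF (uses LNK, OCT; about 80 lines). A vertex of degree four has at most two neighbours of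
degree four. Otherwise (OCT, any three of the four neighbours are three consecutive ones) it has
four; then each of its neighbours `n_i` has the three neighbours `t, n_(i-1), n_(i+1)` of degree
four; so the vertices of degree four with four neighbours of degree four are closed under
adjacency; `T` is connected, and there is a vertex of degree `≠ 4`. -/
def AlfStmt : Prop :=
  ∀ (V : Type) [Fintype V] (T : Tri V), T.graph.Connected → (∃ v, T.deg v ≠ 4) →
    ∀ t n₁ n₂ n₃ n₄, T.deg t = 4 → T.f t n₁ n₂ → T.f t n₂ n₃ → T.f t n₃ n₄ → T.f t n₄ n₁ →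
      ¬ (T.deg n₁ = 4 ∧ T.deg n₂ = 4 ∧ T.deg n₃ = 4)

/-- CHE (uses LNK, ALF; about 250 lines): every chain has an end. Let
`S = {(b, a) | deg b = deg a = 4, f b a u, f a b w}`. Around `a` (LNK): `u, b, w, p`, that is
`f a u b`, `f a b w`, `f a w p`, `f a p u`. If `deg p ≠ 4` for some `(b, a) ∈ S`: done with
`a' = a`, `b' = b`. Otherwise `(b, a) ↦ (a, p)` maps `S` to `S`; it is injective (`b` is determined
by `a`, `u`: `f a u b`), so bijective (finite). `b ∈ N(u)`, and `a` comes after `b` around `u`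
(`f u b a`); so by `T.link` all neighbours of `u` are first components of `S`; around `w` the
neighbour after `a` is `b` (`f w a b`), and by surjectivity the same holds for `w`. So
`{u, w} ∪ {first components of S}` is closed under adjacency (the neighbours of `a` are `u, b, w,
p`), hence everything, and only `u, w` have degree `≠ 4`. -/
def CheStmt : Prop :=
  ∀ (V : Type) [Fintype V] (T : Tri V), T.graph.Connected → 3 ≤ Nat.card {v // T.deg v ≠ 4} →
    ∀ a b u w, T.deg a = 4 → T.deg b = 4 → T.deg u ≠ 4 → T.deg w ≠ 4 → T.f b a u → T.f a b w →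
      ∃ a' b' p, T.deg a' = 4 ∧ T.deg b' = 4 ∧ T.deg p ≠ 4 ∧
        T.f a' p u ∧ T.f a' u b' ∧ T.f a' b' w ∧ T.f a' w p

/-- COR (uses LNK, ALF, CHE; about 400 lines, may be split). `μ u w` = the number of the pairs
`(a, b)` of vertices of degree four with `f a b u`, `f b a w`, if `u, w ∈ H`, and `0` otherwise.
Count the darts that start in `A` by the types of the two other corners: `Q₁` = number of `(a, b)`,
`a ∈ A`, `b, c ∈ H`, `f a b c`; `Q₂`: `b ∈ A`, `c ∈ H`; equally many with `b ∈ H`, `c ∈ A` (rotate: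
`(a, b, c) ↦ (b, c, a)`); `Q₃`: `b, c ∈ A`. `P` = number of the darts of faces with three corners
in `H`. Rotation of the faces gives `all darts = P + 3 Q₁ + 3 Q₂ + Q₃ = 6 h + 6 m - 12`, and
`4 m = Q₁ + 2 Q₂ + Q₃` (`m = |A|`), so `12 h = 24 + 2 P + 3 Q₁ - Q₃`. For `a ∈ A` the link is
(ALF) one of: no or one neighbour in `A` (four resp. two darts counted by `Q₁`, none by `Q₃`), two
opposite ones (none), two consecutive ones (one and one). Call `a` an end if it has exactly one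
neighbour in `A`. By CHE the map `end ↦ (u, w)` (neighbour `b'` in `A`, `u` before and `w` after
`b'` around `a'`) reaches all `(u, w)` with `μ u w ≠ 0`, so there are at least
`ord := #{(u, w) | μ u w ≠ 0}` ends, and `Q₁ ≥ 2 ord + Q₃`. So
`12 h - 24 = 2 P + 3 Q₁ - Q₃ ≥ 2 P + 6 ord + 2 Q₃`, which gives the last claim. The sum of the
degrees in `H` is `P + 2 Q₁ + Q₂` and `∑ μ = Q₂ - (the darts (a, b) ∈ A² with f a b c, c ∈ H, and
f b a c', c' ∈ A)`, at most `Q₃` of them; so the difference is at most `P + 2 Q₁ + Q₃ ≤ 18 h`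
(`Q₃ ≤ Q₁`, `2 P + 2 Q₁ ≤ 12 h - 24`). `μ u u = 0`: `u ≠ w` because around `a` they are different
(LNK). `∑ w, μ u w <= deg u`: `(a, b) ↦ a` is injective into the neighbours of `u`. -/
def CorStmt : Prop :=
  ∀ (V : Type) [Fintype V] (T : Tri V), T.graph.Connected → T.Tight →
    3 ≤ Nat.card {v // T.deg v ≠ 4} →
    ∃ μ : V → V → ℕ, (∀ u w, μ u w = μ w u) ∧
      (∀ u w, μ u w ≠ 0 → T.deg u ≠ 4 ∧ T.deg w ≠ 4 ∧ u ≠ w) ∧
      (∀ u, ∑ w, μ u w ≤ T.deg u) ∧
      (∑ u, (if T.deg u = 4 then 0 else T.deg u) ≤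
        ∑ u, ∑ w, μ u w + 18 * Nat.card {v // T.deg v ≠ 4}) ∧
      3 * Nat.card {p : V × V // μ p.1 p.2 ≠ 0} +
        Nat.card {p : V × V // ∃ w, T.f p.1 p.2 w ∧ T.deg p.1 ≠ 4 ∧ T.deg p.2 ≠ 4 ∧
          T.deg w ≠ 4} + 12 ≤ 6 * Nat.card {v // T.deg v ≠ 4}

/-- BAL (graph theory, about 300 lines). `X` = the graph `μ i j ≠ 0` on `ι`. `P` = the vertex sets
of the connected components of `X` that are trees. A connected graph has at least
`vertices - 1` edges, with equality iff it is a tree; so (number of tree components) `≥`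
`∑ (vertices - edges) = |ι| - |edges|`. A tree is bipartite: `s = ± 1` with `s i = - s j` on edges
(parity of the distance to a root), so `∑_(i ∈ C) s i ∑_j μ i j = 0`, and
`|∑_(i ∈ C) s i d i| = |∑_(i ∈ C) s i (d i - ∑_j μ i j)| ≤ ∑ (d i - ∑_j μ i j) ≤ B`. `K` = the
component of `z`: `d z ≤ ∑_j μ z j + B` and `μ z j ≤ ∑_i μ j i ≤ d j` for the neighbours `j ∈ K`,
`j ≠ z`. (Alternative without components of graphs: induction on the number of edges.) -/
def BalStmt : Prop :=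
  ∀ (ι : Type) [Fintype ι] [DecidableEq ι] (d : ι → ℕ) (μ : ι → ι → ℕ) (B : ℕ),
    (∀ i j, μ i j = μ j i) → (∀ i, μ i i = 0) → (∀ i, ∑ j, μ i j ≤ d i) →
    ∑ i, d i ≤ ∑ i, ∑ j, μ i j + B →
    ∃ P : Finset (Finset ι), (∀ C ∈ P, C.Nonempty) ∧
      (∀ C ∈ P, ∀ C' ∈ P, C ≠ C' → Disjoint C C') ∧
      2 * Fintype.card ι ≤ 2 * P.card + Nat.card {p : ι × ι // μ p.1 p.2 ≠ 0} ∧
      (∀ C ∈ P, ∃ s : ι → ℤ, (∀ i, s i = 1 ∨ s i = -1) ∧ |∑ i ∈ C, s i * (d i : ℤ)| ≤ B) ∧
      ∀ z, ∃ K : Finset ι, z ∈ K ∧ (∀ C ∈ P, z ∉ C → Disjoint C K) ∧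
        d z ≤ ∑ i ∈ K.erase z, d i + B

/-- CNE (core of the necessity; uses PAR, COR, BAL; about 100 lines). COR for the triangulation of
PAR, `μ i j := μ (φ i) (φ j)` (`μ` vanishes outside the range of `φ`), `B = 18 |ι|`;
`3 ord + 3 q + 12 ≤ 6 h`, `h = |ι|`. -/
def CneStmt : Prop :=
  ∀ (ι : Type) [Fintype ι] [DecidableEq ι] (d : ι → ℕ) (mk : ι → Bool) (m n q : ℕ),
    (∀ i, 5 ≤ d i) → 3 ≤ Fintype.card ι →
    ∑ i, d i + 12 = 2 * m + 6 * Fintype.card ι →
    n + 4 + q = 2 * (Fintype.card ι + m) →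
    Nat.card {i // mk i = true} = 3 * q →
    Realizable (Finset.univ.val.map (fun i => 2 * d i - (if mk i then 1 else 0)) +
      Multiset.replicate m 8 + Multiset.replicate n 3) →
    ∃ P : Finset (Finset ι), (∀ C ∈ P, C.Nonempty) ∧
      (∀ C ∈ P, ∀ C' ∈ P, C ≠ C' → Disjoint C C') ∧ q + 4 ≤ 2 * P.card ∧
      (∀ C ∈ P, ∃ s : ι → ℤ, (∀ i, s i = 1 ∨ s i = -1) ∧
        |∑ i ∈ C, s i * (d i : ℤ)| ≤ 18 * (Fintype.card ι : ℤ)) ∧
      ∀ z, ∃ K : Finset ι, z ∈ K ∧ (∀ C ∈ P, z ∉ C → Disjoint C K) ∧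
        d z ≤ ∑ i ∈ K.erase z, d i + 18 * Fintype.card ι

/-! ## Necessity: arithmetic -/

/-- SID (about 200 lines). Digits in base `bs t = 4 (t + 1) ^ 2`: `code k i` has the digit `i + 1`
at place `2 k` and `(i + 1) ^ 2` at place `2 k + 1`; sums of at most three codes have digits
`≤ 3 t ^ 2 < bs t`. Sidon: same number of elements of each kind (the digit at place `2 k` is zero
iff there is none, and for two elements `i + 1 + j + 1`, `(i + 1) ^ 2 + (j + 1) ^ 2` determine
`{i, j}`; if one side has one element of kind `k` and the other two: impossible by the rest: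
`i + 1 = a + b`, `(i + 1) ^ 2 = a ^ 2 + b ^ 2` with `a, b ≥ 1` is impossible). Triples: all six
digits are `≥ 1`, so each kind appears once. -/
def SidStmt : Prop :=
  ∀ t : ℕ, (∀ x : Fin 3 × Fin t, code x.1 x.2 < bs t ^ 6) ∧
    (∀ x x' : Fin 3 × Fin t, vA x.1 x.2 = vA x'.1 x'.2 → x = x') ∧
    (∀ x₁ x₂ x₃ x₄ : Fin 3 × Fin t, vA x₁.1 x₁.2 + vA x₂.1 x₂.2 = vA x₃.1 x₃.2 + vA x₄.1 x₄.2 →
      (x₁ = x₃ ∧ x₂ = x₄) ∨ (x₁ = x₄ ∧ x₂ = x₃)) ∧
    (∀ (p : Fin t × Fin t × Fin t) (x₁ x₂ x₃ : Fin 3 × Fin t),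
      vC p = vA x₁.1 x₁.2 + vA x₂.1 x₂.2 + vA x₃.1 x₃.2 →
      ({x₁, x₂, x₃} : Finset (Fin 3 × Fin t)) = {(0, p.1), (1, p.2.1), (2, p.2.2)}) ∧
    (∀ p p' : Fin t × Fin t × Fin t, vC p = vC p' → p = p')

/-- the weights: `2` for elements, `4` for triples, `5` for `E₀, E₀', E₁, E₁'` -/
def wt {t : ℕ} {τ : Ins t} : Big τ → ℕ
  | Sum.inl _ => 2
  | Sum.inr (Sum.inl _) => 4
  | Sum.inr (Sum.inr (Sum.inl _)) => 5
  | Sum.inr (Sum.inr (Sum.inr _)) => 0

/-- SML (uses SID; about 300 lines). Let `nA, nC, nE` be the numbers of the elements, triples and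
`E`s in `C`; the weight is `2 nA + 4 nC + 5 nE`. The values of elements and triples are divisible
by `8`, the values of the `E`s are `1, 1, 3, 3`: their signed sum is divisible by `8` and at most
`8` in absolute value; if `nE = 1` this is impossible (`± 1`, `± 3`), so `nE = 0` if the weight is
`< 10`, and if the weight is `10` then `nE = 0` or `nE = 2` and there is no element. Let `nE = 0`,
weight `≤ 10`: `nA + 2 nC ≤ 5`. Elements have value `8 (off + code)`, triples `8 (3 off + codes)`,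
with at most `5` resp. `(2 · 3 + 1)` codes, each `< bs ^ 6`, and `off ≥ 16 bs ^ 6` (there is an
element, so `t ≥ 1`); so the signed sum of `1` for the elements and `3` for the triples is zero. The
cases `(nA, nC)` with `nA + 2 nC ≤ 5`: `(1,0), (3,0), (5,0), (0,1), (1,1), (2,1), (1,2)`: the signed
count cannot vanish; `(2,0)`: `vA x = vA x'`; `(4,0)`: Sidon (the counts force two against two);
`(0,2)`: `vC p = vC p'`; `(3,1)`: the triple against the three elements. -/
def SmlStmt : Prop :=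
  ∀ (t : ℕ) (τ : Ins t) (C : Finset (Big τ)) (s : Big τ → ℤ), (∀ v, s v = 1 ∨ s v = -1) →
    ∑ v ∈ C, s v * (val v : ℤ) = 0 → C.Nonempty → (∀ v ∈ C, wt v ≠ 0) →
    10 ≤ ∑ v ∈ C, wt v ∧
      (∑ v ∈ C, wt v = 10 → ∀ x, el x ∈ C → ∃ p : ↥τ,
        C = {tr p, el (0, p.1.1), el (1, p.1.2.1), el (2, p.1.2.2)})

/-- TOT (about 200 lines). The sum of the values of all vertices except `Z` is
`sA + sC + 8 + (4 t + 4) vD`, and `vZ = sC + (4 t + 4) vD - sA` (`sA ≤ (4 t + 4) vD`). So the values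
outside `K` have sum `≤ 2 sA + 8 < vD`: no dummy is outside. Let `nA, nC, nE` be the numbers outside
`K`. `8 off (nA + 3 nC) ≤ 2 sA + 8 ≤ 48 t (off + bs ^ 6) + 8 < 8 off (6 t + 1)` (`code < bs ^ 6`,
from SID): `nA + 3 nC ≤ 6 t`; `nA ≤ 3 t`, `nE ≤ 4`. The weight outside `K` is
`2 nA + 4 nC + 5 nE ≤ 8 t + (2 / 3) nA + 20 ≤ 10 t + 20`, with equality only if `nA = 3 t`. -/
def TotStmt : Prop :=
  ∀ (t : ℕ) (τ : Ins t) (K : Finset (Big τ)),
    zz ∈ K → vZ τ ≤ ∑ v ∈ K.erase zz, val v →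
    (∀ k, dm k ∈ K) ∧ ∑ v ∈ Kᶜ, wt v ≤ 10 * (t + 2) ∧
      (∑ v ∈ Kᶜ, wt v = 10 * (t + 2) → ∀ x, el x ∉ K)

/-- AR3 (uses SML, TOT, NUM; about 250 lines). `|Big τ| = 7 t + |τ| + 9`. At most one member of `P`
contains `Z`; let `P'` be the others, at least `t + 2`. Scaling: `|dgr v - sc val v|` is at most
`10` for the triples, `3` for `E₀', E₁'`, zero for all others except `Z`; so for `C ∈ P'`
`sc |∑ s val| ≤ 18 |Big| + 10 |τ| + 6 < sc` and `∑ s val = 0`; in the same way
`vZ ≤ ∑_(K - Z) val`. TOT: the dummies are in `K`, so all weights of members of `P'` are nonzero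
(they are disjoint from `K`), SML: weight `≥ 10` each, total `≤ 10 (t + 2)`: so `|P'| = t + 2`,
all weights are `10`, every element is outside `K` and in exactly one member of `P'`, which is
`{p, its three elements}`. `S` = the triples `p` that appear. Two different `p, p' ∈ S` are in
disjoint members. `i ↦` the `p` with `(0, i)` in the member is a bijection of `Fin t` with `S`. -/
def Ar3Stmt : Prop :=
  ∀ (t : ℕ) (τ : Ins t) (P : Finset (Finset (Big τ))), (∀ C ∈ P, C.Nonempty) →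
    (∀ C ∈ P, ∀ C' ∈ P, C ≠ C' → Disjoint C C') → t + 3 ≤ P.card →
    (∀ C ∈ P, ∃ s : Big τ → ℤ, (∀ i, s i = 1 ∨ s i = -1) ∧
      |∑ i ∈ C, s i * (dgr i : ℤ)| ≤ 18 * (Fintype.card (Big τ) : ℤ)) →
    (∃ K : Finset (Big τ), zz ∈ K ∧ (∀ C ∈ P, zz ∉ C → Disjoint C K) ∧
      dgr (zz : Big τ) ≤ ∑ i ∈ K.erase zz, dgr i + 18 * Fintype.card (Big τ)) →
    Matching τ

/-- NUM (about 200 lines). Sums over `Big τ` split by `Fintype.sum_sum_type`. With
`vZ = sC + (4 t + 4) vD - sA` the sum of the degrees is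
`sc (2 sC + 2 (4 t + 4) vD + 8) - 24 |τ| - 2 t - 14`. The scale is large, so the subtractions are
genuine. -/
def NumStmt : Prop :=
  ∀ (t : ℕ) (τ : Ins t), Fintype.card (Big τ) = 7 * t + τ.card + 9 ∧
    Nat.card {v : Big τ // mrk v = true} = 6 * t + 6 ∧
    ∑ v : Big τ, dgr v + 12 = 2 * n4 τ + 6 * Fintype.card (Big τ) ∧
    (∀ v : Big τ, 100 ≤ dgr v) ∧ n3 τ + 4 + (2 * t + 2) = 2 * (Fintype.card (Big τ) + n4 τ)

/-- SIZ (uses NUM; about 150 lines). `|τ| ≤ t ^ 3`. The sum is the number of the darts. With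
`u = t + 1`: `sc ≤ 600 u ^ 3`, `bs ^ 6 = 4096 u ^ 12`, `off = 32768 u ^ 13`, `vA ≤ 294912 u ^ 13`,
`sA ≤ 884736 u ^ 14`, `vD ≤ 1769481 u ^ 14`, `sC ≤ 884736 u ^ 16`, `n4 ≤ 5 · 10 ^ 9 u ^ 19`. The
entries: `2 dgr v ≤ 3 n4 τ`, roughly `2 sc vZ ≤ 3 sc (4 + sC + (4 t + 4) vD) - ..`. -/
def SizStmt : Prop :=
  ∀ (t : ℕ) (τ : Ins t), (seqm τ).sum + 12 = 6 * (seqm τ).card ∧
    (seqm τ).card ≤ 10 ^ 11 * (t + 1) ^ 19 ∧ ∀ x ∈ seqm τ, x ≤ (seqm τ).card

/-- NE3 (uses CNE, NUM, AR3; about 50 lines). -/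
def Ne3Stmt : Prop := ∀ (t : ℕ) (τ : Ins t), Realizable (seqm τ) → Matching τ

/-! ## Sufficiency: operations on triangulations -/

/-- INS (about 250 lines; copy the proof of SUB): a new vertex in the face `(u, v, w)`. `T'` on
`Option V`, `b = none`: the old faces without the rotations of `(u, v, w)`, and the rotations of
`(u, v, b)`, `(v, w, b)`, `(w, u, b)`. Link of `u`: `v → b → w` instead of `v → w`. -/
def InsStmt : Prop :=
  ∀ (V : Type) [Fintype V] (T : Tri V) (u v w : V), T.f u v w →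
    ∃ T' : Tri (Option V),
      (∀ x y z, T.f x y z → ¬ ((x = u ∧ y = v) ∨ (x = v ∧ y = w) ∨ (x = w ∧ y = u)) →
        T'.f (some x) (some y) (some z)) ∧
      T'.f (some u) (some v) none ∧ T'.f (some v) (some w) none ∧ T'.f (some w) (some u) none ∧
      (∀ x, x ≠ u → x ≠ v → x ≠ w → T'.deg (some x) = T.deg x) ∧
      T'.deg (some u) = T.deg u + 1 ∧ T'.deg (some v) = T.deg v + 1 ∧
      T'.deg (some w) = T.deg w + 1 ∧ T'.deg none = 3 ∧
      (T.graph.Connected → T'.graph.Connected)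

/-- PTH (uses SUB; about 150 lines; compare STR): subdivide the edge `u v` with the opposite
vertices `a`, `a'` by `L` vertices, all joined to `a` and `a'`. Induction on `L` with the invariant:
there is a vertex `b` (`b = ι v` for `L = 0`) with `f (ι u) b (ι a)`, `f b (ι u) (ι a')`. Step: SUB
at the edge `(ι u, b)`. -/
def PthStmt : Prop :=
  ∀ (V : Type) [Fintype V] (T : Tri V) (u v a a' : V) (L : ℕ), T.f u v a → T.f v u a' → a ≠ a' →
    T.graph.Connected →
    ∃ (W : Type) (_ : Fintype W) (T' : Tri W) (ι : V ↪ W),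
      (∀ x y z, T.f x y z → ¬ ((u = x ∨ u = y ∨ u = z) ∧ (v = x ∨ v = y ∨ v = z)) →
        T'.f (ι x) (ι y) (ι z)) ∧
      T'.deg (ι a) = T.deg a + L ∧ T'.deg (ι a') = T.deg a' + L ∧
      (∀ x, x ≠ a → x ≠ a' → T'.deg (ι x) = T.deg x) ∧
      (∀ w, w ∉ Set.range ι → T'.deg w = 4) ∧
      Nat.card W = Nat.card V + L ∧ T'.graph.Connected

/-- FIL (uses INS; about 250 lines): a new vertex in every face of a finite rotation invariant
family `R` of faces. Induction on the number of the pairs `(u, v)` with `R u v w` for some `w`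
(INS at one face of `R`; the new family: the images of the others). -/
def FilStmt : Prop :=
  ∀ (V : Type) [Fintype V] (T : Tri V) (R : V → V → V → Prop), T.graph.Connected →
    (∀ u v w, R u v w → T.f u v w) → (∀ u v w, R u v w → R v w u) →
    ∃ (W : Type) (_ : Fintype W) (T' : Tri W) (ι : V ↪ W), T'.graph.Connected ∧
      (∀ v, T'.deg (ι v) = T.deg v + Nat.card {a // ∃ b, R v a b}) ∧
      (∀ w, w ∉ Set.range ι → T'.deg w = 3) ∧
      3 * Nat.card W = 3 * Nat.card V + Nat.card {p : V × V // ∃ w, R p.1 p.2 w}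

/-- MIR (about 60 lines): reverse the orientation: `f' u v w := f v u w`. -/
def MirStmt : Prop :=
  ∀ (k : ℕ) (F : List (ℕ × ℕ × ℕ)) (mk : List ℕ) (dg : ℕ → ℕ) (M : Multiset (ℕ × Bool)),
    Rl k F mk dg M → Rl k (F.map (fun p => (p.2.1, p.1, p.2.2))) mk dg M

/-- OPA (uses INS; about 150 lines): a new named vertex `k` in the face `(i, j, l)`. -/
def OpaStmt : Prop :=
  ∀ (k : ℕ) (F : List (ℕ × ℕ × ℕ)) (mk : List ℕ) (dg : ℕ → ℕ) (M : Multiset (ℕ × Bool)),
    Rl k F mk dg M → ∀ i j l, (i, j, l) ∈ F → k ∉ mk → ∀ (F' : List (ℕ × ℕ × ℕ)) (dg' : ℕ → ℕ),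
    (∀ p ∈ F', (Rt F p ∧ ¬ IsRot (i, j, l) p) ∨ Rt [(i, j, k), (j, l, k), (l, i, k)] p) →
    (∀ n, n < k → dg' n = dg n + (if n = i ∨ n = j ∨ n = l then 1 else 0)) → dg' k = 3 →
    Rl (k + 1) F' mk dg' M

/-- OPB (uses STR; about 150 lines): the edge `u v` with the faces `(u, v, a)`, `(v, u, a')` is
replaced by a strip of `L + 1` vertices of degree four. -/
def OpbStmt : Prop :=
  ∀ (k : ℕ) (F : List (ℕ × ℕ × ℕ)) (mk : List ℕ) (dg : ℕ → ℕ) (M : Multiset (ℕ × Bool)),
    Rl k F mk dg M → ∀ u v a a' L : ℕ, Rt F (u, v, a) → Rt F (v, u, a') → a ≠ a' →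
    ∀ (F' : List (ℕ × ℕ × ℕ)) (dg' : ℕ → ℕ),
    (∀ p ∈ F', Rt F p ∧ ¬ ((u = p.1 ∨ u = p.2.1 ∨ u = p.2.2) ∧ (v = p.1 ∨ v = p.2.1 ∨ v = p.2.2))) →
    (∀ n, n < k → dg' n = dg n + (if n = u ∨ n = v then L else 0) +
      (if n = a ∨ n = a' then 1 else 0)) →
    Rl k F' mk dg' (M + Multiset.replicate (L + 1) (4, false))

/-- OPC (uses PTH; about 150 lines): the edge `u v` with the faces `(u, v, a)`, `(v, u, a')` is
subdivided by `L` vertices of degree four joined to `a` and `a'`. -/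
def OpcStmt : Prop :=
  ∀ (k : ℕ) (F : List (ℕ × ℕ × ℕ)) (mk : List ℕ) (dg : ℕ → ℕ) (M : Multiset (ℕ × Bool)),
    Rl k F mk dg M → ∀ u v a a' L : ℕ, Rt F (u, v, a) → Rt F (v, u, a') → a ≠ a' →
    ∀ (F' : List (ℕ × ℕ × ℕ)) (dg' : ℕ → ℕ),
    (∀ p ∈ F', Rt F p ∧ ¬ ((u = p.1 ∨ u = p.2.1 ∨ u = p.2.2) ∧ (v = p.1 ∨ v = p.2.1 ∨ v = p.2.2))) →
    (∀ n, n < k → dg' n = dg n + (if n = a ∨ n = a' then L else 0)) →
    Rl k F' mk dg' (M + Multiset.replicate L (4, false))

/-- OPD (about 80 lines): the face `(i, j, l)` with three unmarked corners becomes a free face. -/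
def OpdStmt : Prop :=
  ∀ (k : ℕ) (F : List (ℕ × ℕ × ℕ)) (mk : List ℕ) (dg : ℕ → ℕ) (M : Multiset (ℕ × Bool)),
    Rl k F mk dg M → ∀ i j l, (i, j, l) ∈ F → i ∉ mk → j ∉ mk → l ∉ mk →
    ∀ F' : List (ℕ × ℕ × ℕ), (∀ p ∈ F', Rt F p ∧ ¬ IsRot (i, j, l) p) →
    Rl k F' (i :: j :: l :: mk) dg M

open Classical in
/-- OPE (about 120 lines): forget and rename vertices. -/
def OpeStmt : Prop :=
  ∀ (k : ℕ) (F : List (ℕ × ℕ × ℕ)) (mk : List ℕ) (dg : ℕ → ℕ) (M : Multiset (ℕ × Bool)),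
    Rl k F mk dg M → ∀ (k' : ℕ) (σ : ℕ → ℕ) (F' : List (ℕ × ℕ × ℕ)) (mk' : List ℕ) (dg' : ℕ → ℕ),
    (∀ i, i < k' → σ i < k) → (∀ i j, i < k' → j < k' → σ i = σ j → i = j) →
    (∀ p ∈ F', p.1 < k' ∧ p.2.1 < k' ∧ p.2.2 < k' ∧ Rt F (σ p.1, σ p.2.1, σ p.2.2)) →
    (∀ i, i < k' → (i ∈ mk' ↔ σ i ∈ mk)) → (∀ i, i < k' → dg' i = dg (σ i)) →
    Rl k' F' mk' dg' (M + ((Finset.range k).filter (fun n => ∀ i, i < k' → σ i ≠ n)).val.map
      (fun n => (dg n, decide (n ∈ mk))))

/-- FIN (uses TPL, FIL; about 250 lines). No named vertices: `M` is the family of all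
(degree, marked?). `T` is tight. Apply FIL to the family `R` of the faces outside `U`: around `v`
there are `deg v` faces, one of them in `U` if `v` is marked and none otherwise. The number of the
new vertices is `(6 |V| - 12 - 3 q) / 3 = n`. The new triangulation is tight, TPL. -/
def FinStmt : Prop :=
  ∀ (dg : ℕ → ℕ) (M : Multiset (ℕ × Bool)) (n q : ℕ), Rl 0 [] [] dg M →
    (M.map Prod.fst).sum + 12 = 6 * M.card → M.countP (fun p => p.2 = true) = 3 * q →
    n + 4 + q = 2 * M.card →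
    Realizable (M.map (fun p => 2 * p.1 - (if p.2 then 1 else 0)) + Multiset.replicate n 3)

/-! ## Sufficiency: the chain -/

/-- TET (about 60 lines): the tetrahedron; `Tri (Fin 4)` by `decide`. -/
def TetStmt : Prop :=
  Rl 4 [(0, 1, 2), (0, 2, 3), (0, 3, 1), (1, 3, 2)] [] (fun _ => 3) 0

/-- BAS (uses TET, OPA, OPB, OPD, OPE, MIR; about 100 lines). Names `0 = Z, 1 = E', 2 = a, 3 = b`.
OPA at `(1, 3, 2)`: new `4 = E`; OPD at `(3, 2, 4)`; OPB `u, v, a, a' = 4, 1, 3, 2`, `L = e - 3`;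
OPB `0, 2, 3, 1`, `L = D - 5`; OPE with `σ = 0, 1, 3` (the face is `(0, 3, 1)`), MIR. -/
def BasStmt : Prop :=
  ∀ D e : ℕ, 5 ≤ D → 3 ≤ e →
    St (D - 2) (e + 2) false 6 true
      ({(e, true), (D, true)} + Multiset.replicate ((e - 2) + (D - 4)) (4, false))

/-- APP (uses OPA, OPC, OPE, MIR; about 100 lines). Names `0 = Z, 1, 2`. OPA at `(0, 1, 2)`: new
`3`; OPC `u, v, a, a' = 1, 3, 0, 2`, `L = s`; OPE with `σ = 0, 2, 3` (the face `(2, 0, 3)`); MIR. -/
def AppStmt : Prop :=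
  ∀ (α dz : ℕ) (mz : Bool) (db : ℕ) (mb : Bool) (M : Multiset (ℕ × Bool)), St α dz mz db mb M →
    ∀ s : ℕ, St (α + 1 + s) (db + 1 + s) mb 3 false
      (M + {(dz + 1, mz)} + Multiset.replicate s (4, false))

/-- BLK (uses APP, OPA, OPB, OPD, OPE; about 250 lines). APP with `s`; APP with `D - 6`. Names
`0 = Z, 1 = a_L, 2 = x`. OPA `(0,1,2)` new `3 = b_L`; OPD `(1,2,3)`; OPA `(2,0,3)` new `4 = c`;
OPA `(0,3,4)` new `5 = z`; OPA `(4,0,5)` new `6 = b_R`; OPA `(4,0,6)` new `7 = y`; OPA `(0,6,7)`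
new `8 = a_R`; OPD `(6,7,8)`; OPB `u, v, a, a', L`: `0,8,7,6, D - 3`; `0,3,5,1, D - 7`;
`4,2,0,3, x - 5`; `4,5,3,6, z - 6`; `4,7,6,0, y - 5`; OPE with `σ = 0, 5, 6` (the face `(0,5,6)`).
Final degrees: `1: D, 2: x, 3: D, 4: x + y + z - 10, 5: z - 1, 6: 8, 7: y, 8: D`, marked `1, 2, 3,
6, 7, 8`. (Checked by program.) -/
def BlkStmt : Prop :=
  ∀ (α dz : ℕ) (mz : Bool) (db : ℕ) (mb : Bool) (M : Multiset (ℕ × Bool)), St α dz mz db mb M →
    ∀ s D x y z : ℕ, 10 ≤ D → 10 ≤ x → 10 ≤ y → 10 ≤ z →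
    St (α + s + 3 * D - 6) (z - 1) false 8 true
      (M + {(dz + 1, mz), (db + s + 2, mb), (D, true), (D, true), (D, true), (x, true), (y, true),
        (x + y + z - 10, false)} + Multiset.replicate (s + 3 * D + x + y + z - 27) (4, false))

/-- CAP (uses APP, OPA, OPB, OPD, OPE; about 150 lines). APP with `s`; APP with `D - 8`. Names
`0 = Z, 1 = a, 2 = E'`. OPA `(0,1,2)` new `3 = b`; OPA `(1,2,3)` new `4 = E`; OPD `(3,1,4)`;
OPB `0,3,2,1, D - 5`; OPB `2,4,1,3, e - 3`; OPE with `k' = 0`. -/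
def CapStmt : Prop :=
  ∀ (α dz : ℕ) (mz : Bool) (db : ℕ) (mb : Bool) (M : Multiset (ℕ × Bool)), St α dz mz db mb M →
    ∀ s D e : ℕ, 10 ≤ D → 3 ≤ e →
    Rl 0 [] [] (fun _ => 0)
      (M + {(dz + 1, mz), (db + s + 2, mb), (D, true), (D, true), (e, true), (e + 3, false),
        (α + s + 2 * D - 10, false)} + Multiset.replicate (s + 2 * D + e - 14) (4, false))

/-- CH3 (uses BAS, APP, BLK, CAP; about 200 lines). Start with BAS (`e = e₀`), then APP for the
members of `lf` (each new vertex becomes the vertex `2` with degree `3`; in the next step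
`s = (its final degree) - 5`; the first time `s = D - 8`), then BLK for the members of `gs` (the
first time `s` as before; after a block `s = D - 10`), then CAP (`e = e₁`). Induction over the lists
with a state `St α (dz) mz γ mb M` and the final degree `b` of the vertex `2`. -/
def Ch3Stmt : Prop :=
  ∀ (D e₀ e₁ : ℕ) (lf : List ℕ) (gs : List (ℕ × ℕ × ℕ)), 20 ≤ D → 3 ≤ e₀ → 3 ≤ e₁ →
    (∀ x ∈ lf, 20 ≤ x) → (∀ g ∈ gs, 20 ≤ g.1 ∧ 20 ≤ g.2.1 ∧ 20 ≤ g.2.2) →
    ∃ α n : ℕ, α + 20 + 16 * gs.length + 4 * lf.length = lf.sum + (4 * gs.length + 4) * D ∧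
      n + 28 + 37 * gs.length + 5 * lf.length = (gs.map (fun g => g.1 + g.2.1 + g.2.2)).sum +
        e₀ + e₁ + lf.sum + (4 * gs.length + 4) * D ∧
      Rl 0 [] [] (fun _ => 0)
        ({(α, false), (e₀, true), (e₀ + 3, false), (e₁, true), (e₁ + 3, false)} +
          Multiset.replicate (4 * gs.length + 4) (D, true) +
          Multiset.ofList (lf.map (fun x => (x, false))) +
          Multiset.ofList (gs.map (fun g => (g.1, true))) +
          Multiset.ofList (gs.map (fun g => (g.2.1, true))) +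
          Multiset.ofList (gs.map (fun g => (g.2.2, false))) +
          Multiset.ofList (gs.map (fun g => (g.1 + g.2.1 + g.2.2 - 10, false))) +
          Multiset.replicate n (4, false))

/-- SU3 (uses NUM, FIN, CH3; about 250 lines). `S` a matching: `lf` = the list of the degrees
`sc vC p - 10`, `p ∈ τ - S`, `gs` = the list of `(sc vA 0 p.1, sc vA 1 p.2.1, sc vA 2 p.2.2)`,
`p ∈ S`, `D = sc vD`, `e₀ = sc`, `e₁ = 3 sc`. `|S| = t` and the three coordinates are bijections
`S → Fin t`. The multiset of CH3 is the image of `Big τ` under `v ↦ (dgr v, mrk v)` together with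
`n4 τ` times `(4, false)`: `α = dgr Z`, `n = n4 τ` by the equations; `q = 2 t + 2`. -/
def Su3Stmt : Prop := ∀ (t : ℕ) (τ : Ins t), Matching τ → Realizable (seqm τ)

end Pool.Agent.PDM
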