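import Mathlib
import Pool.Agent.PDM.Stmts

/-!
# PDM: the main statement, assembled
-/

set_option autoImplicit false

namespace Pool.Agent.PDM

open Pool.Agent.PDN

/-- The sequence belonging to the instance `τ` of 3-DIMENSIONAL MATCHING is the family of the
degrees of a planar graph if and only if `τ` has a matching; the sum of the sequence is six times
its length minus twelve, its length is at most `10 ^ 11 (t + 1) ^ 19` and bounds all entries. -/
def MainStmt : Prop :=
  ∀ (t : ℕ) (τ : Ins t), (Realizable (seqm τ) ↔ Matching τ) ∧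
    (seqm τ).sum + 12 = 6 * (seqm τ).card ∧
    (seqm τ).card ≤ 10 ^ 11 * (t + 1) ^ 19 ∧ ∀ x ∈ seqm τ, x ≤ (seqm τ).card

/-- ASM -/
theorem asm (ne : Ne3Stmt) (su : Su3Stmt) (siz : SizStmt) : MainStmt :=
  fun t τ => ⟨⟨ne t τ, su t τ⟩, siz t τ⟩

end Pool.Agent.PDM
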